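import Mathlib

namespace Pool.Agent.P.MP_998457_co

variable {R V : Type} [Fintype R] [Fintype V]

/-- Energy of `x`: the number of violated checks. -/
def energy (H : Matrix R V (ZMod 2)) (x : V → ZMod 2) : ℕ := hammingNorm (Matrix.mulVec H x)

/-- Energy barrier of the word `x`: the least possible maximal energy along a path of single
bit flips from `0` to `x`. -/
noncomputable def wordBarrier (H : Matrix R V (ZMod 2)) (x : V → ZMod 2) : ℕ :=
  sInf {e : ℕ | ∃ (F : ℕ) (p : ℕ → V → ZMod 2), p 0 = 0 ∧ p F = x ∧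
    (∀ i < F, hammingDist (p i) (p (i + 1)) = 1) ∧ ∀ i ≤ F, energy H (p i) ≤ e}

/-- Energy barrier of the code: the minimum over nonzero codewords. -/
noncomputable def barrier (H : Matrix R V (ZMod 2)) : ℕ :=
  sInf {e : ℕ | ∃ x : V → ZMod 2, x ≠ 0 ∧ Matrix.mulVec H x = 0 ∧ wordBarrier H x = e}

/-- Minimum distance of the code. -/
noncomputable def minDist (H : Matrix R V (ZMod 2)) : ℕ :=
  sInf {w : ℕ | ∃ x : V → ZMod 2, x ≠ 0 ∧ Matrix.mulVec H x = 0 ∧ hammingNorm x = w}

/-- Parity-check matrix of the tensor product code: `A ⊗ I` stacked on `I ⊗ B`. -/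
def tensor {ma na mb nb : ℕ} (A : Matrix (Fin ma) (Fin na) (ZMod 2))
    (B : Matrix (Fin mb) (Fin nb) (ZMod 2)) :
    Matrix ((Fin ma × Fin nb) ⊕ (Fin na × Fin mb)) (Fin na × Fin nb) (ZMod 2) :=
  Matrix.fromRows (Matrix.kronecker A (1 : Matrix (Fin nb) (Fin nb) (ZMod 2)))
    (Matrix.kronecker (1 : Matrix (Fin na) (Fin na) (ZMod 2)) B)

end Pool.Agent.P.MP_998457_co
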