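import Pool.Agent.P.MP_998457_co.Defs

open Matrix Kronecker Finset

namespace Pool.Agent.P.MP_998457_co

section general
variable {R V : Type} [Fintype R] [Fintype V]

def Reach (H : Matrix R V (ZMod 2)) (e : ℕ) (x : V → ZMod 2) : Prop :=
  ∃ (F : ℕ) (p : ℕ → V → ZMod 2), p 0 = 0 ∧ p F = x ∧
    (∀ i < F, hammingDist (p i) (p (i + 1)) = 1) ∧ ∀ i ≤ F, energy H (p i) ≤ e

lemma reach_zero (H : Matrix R V (ZMod 2)) (e : ℕ) : Reach H e 0 :=
  ⟨0, fun _ => 0, rfl, rfl, fun i hi => absurd hi (Nat.not_lt_zero i), fun i _ => by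
    simp [energy]⟩

lemma reach_step {H : Matrix R V (ZMod 2)} {e : ℕ} {x y : V → ZMod 2} (hx : Reach H e x)
    (hd : hammingDist x y ≤ 1) (hy : energy H y ≤ e) : Reach H e y := by
  rcases Nat.le_one_iff_eq_zero_or_eq_one.mp hd with h0 | h1
  · rw [hammingDist_eq_zero] at h0
    exact h0 ▸ hx
  · obtain ⟨F, p, hp0, hpF, hstep, hen⟩ := hx
    refine ⟨F + 1, fun i => if i ≤ F then p i else y, by simp [hp0], by simp, ?_, ?_⟩
    · intro i hi
      by_cases h : i + 1 ≤ F
      · have h' : i ≤ F := by omega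
        simp only [h, h', if_true]
        exact hstep i (by omega)
      · have h' : i = F := by omega
        subst h'
        simp [hpF, h1]
    · intro i hi
      by_cases h : i ≤ F
      · simp only [h, if_true]; exact hen i h
      · simp only [h, if_false]; exact hy

lemma wordBarrier_le {H : Matrix R V (ZMod 2)} {e : ℕ} {x : V → ZMod 2} (hx : Reach H e x) :
    wordBarrier H x ≤ e := Nat.sInf_le hx

lemma reach_wordBarrier {H : Matrix R V (ZMod 2)} {e : ℕ} {x : V → ZMod 2} (hx : Reach H e x) :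
    Reach H (wordBarrier H x) x :=
  Nat.sInf_mem (s := {e : ℕ | Reach H e x}) ⟨e, hx⟩

/-- The indicator of the cells with key below `i`. -/
def pre (key : V → ℕ) (i : ℕ) : V → ZMod 2 := fun v => if key v < i then 1 else 0

lemma reach_pre {H : Matrix R V (ZMod 2)} {e : ℕ} (key : V → ℕ) (hk : Function.Injective key)
    (he : ∀ i, energy H (pre key i) ≤ e) (i : ℕ) : Reach H e (pre key i) := by
  induction i with
  | zero =>
    have : pre key 0 = 0 := by funext v; simp [pre]
    rw [this]; exact reach_zero H e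
  | succ i ih =>
    refine reach_step ih ?_ (he _)
    unfold hammingDist
    rw [Finset.card_le_one]
    intro a ha b hb
    replace ha := (Finset.mem_filter.mp ha).2
    replace hb := (Finset.mem_filter.mp hb).2
    simp only [pre] at ha hb
    have ha' : key a = i := by
      by_contra h
      apply ha
      by_cases h1 : key a < i
      · have : key a < i + 1 := by omega
        simp [h1, this]
      · have : ¬ key a < i + 1 := by omega
        simp [h1, this]
    have hb' : key b = i := by
      by_contra h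
      apply hb
      by_cases h1 : key b < i
      · have : key b < i + 1 := by omega
        simp [h1, this]
      · have : ¬ key b < i + 1 := by omega
        simp [h1, this]
    exact hk (ha'.trans hb'.symm)

lemma reach_one {H : Matrix R V (ZMod 2)} {e : ℕ} (key : V → ℕ) (hk : Function.Injective key)
    (he : ∀ i, energy H (pre key i) ≤ e) : Reach H e (fun _ => 1) := by
  have h := reach_pre key hk he (univ.sup key + 1)
  have : pre key (univ.sup key + 1) = fun _ => 1 := by
    funext v
    have : key v ≤ univ.sup key := Finset.le_sup (mem_univ v)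
    simp [pre, Nat.lt_succ_of_le this]
  rwa [this] at h

lemma energy_le_card (H : Matrix R V (ZMod 2)) (x : V → ZMod 2) :
    energy H x ≤ Fintype.card R := hammingNorm_le_card_fintype

end general

section edges
variable {m n : ℕ}

/-- incidence matrix of a list of edges -/
def inc (a b : Fin m → Fin n) : Matrix (Fin m) (Fin n) (ZMod 2) :=
  fun r j => if j = a r ∨ j = b r then 1 else 0

lemma inc_sum {a b : Fin m → Fin n} (hab : ∀ r, a r ≠ b r) (x : Fin n → ZMod 2) (r : Fin m) :
    ∑ j, inc a b r j * x j = x (a r) + x (b r) := by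
  have : ∀ j, inc a b r j * x j
      = (if j = a r then x j else 0) + (if j = b r then x j else 0) := by
    intro j
    unfold inc
    by_cases h1 : j = a r
    · have h2 : j ≠ b r := fun h => hab r (h1.symm.trans h)
      simp [h1, hab r]
    · by_cases h2 : j = b r
      · simp [h2, (hab r).symm]
      · simp [h1, h2]
  simp only [this, Finset.sum_add_distrib]
  simp

lemma inc_mulVec {a b : Fin m → Fin n} (hab : ∀ r, a r ≠ b r) (x : Fin n → ZMod 2) (r : Fin m) :
    (inc a b *ᵥ x) r = x (a r) + x (b r) := inc_sum hab x r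

lemma add_ne_zero_iff (u v : ZMod 2) : u + v ≠ 0 ↔ u ≠ v := by
  revert u v; decide

lemma energy_inc {a b : Fin m → Fin n} (hab : ∀ r, a r ≠ b r) (x : Fin n → ZMod 2) :
    energy (inc a b) x = (univ.filter fun r => x (a r) ≠ x (b r)).card := by
  unfold energy hammingNorm
  congr 1
  ext r
  simp only [mem_filter, mem_univ, true_and, inc_mulVec hab, add_ne_zero_iff]

lemma tensor_inl {a b : Fin m → Fin n} (hab : ∀ r, a r ≠ b r) (X : Fin n × Fin n → ZMod 2)
    (r : Fin m) (v : Fin n) :
    (tensor (inc a b) (inc a b) *ᵥ X) (Sum.inl (r, v)) = X (a r, v) + X (b r, v) := by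
  rw [← inc_sum hab (fun u => X (u, v)) r]
  simp only [tensor, Matrix.kronecker, Matrix.mulVec, dotProduct, Matrix.fromRows_apply_inl, Fintype.sum_prod_type,
    Matrix.kroneckerMap_apply, Matrix.one_apply]
  refine Finset.sum_congr rfl fun u _ => ?_
  simp

lemma tensor_inr {a b : Fin m → Fin n} (hab : ∀ r, a r ≠ b r) (X : Fin n × Fin n → ZMod 2)
    (u : Fin n) (r : Fin m) :
    (tensor (inc a b) (inc a b) *ᵥ X) (Sum.inr (u, r)) = X (u, a r) + X (u, b r) := by
  rw [← inc_sum hab (fun v => X (u, v)) r]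
  simp only [tensor, Matrix.kronecker, Matrix.mulVec, dotProduct, Matrix.fromRows_apply_inr, Fintype.sum_prod_type,
    Matrix.kroneckerMap_apply, Matrix.one_apply]
  rw [Finset.sum_comm]
  refine Finset.sum_congr rfl fun v _ => ?_
  simp

lemma energy_tensor {a b : Fin m → Fin n} (hab : ∀ r, a r ≠ b r) (X : Fin n × Fin n → ZMod 2) :
    energy (tensor (inc a b) (inc a b)) X =
      (univ.filter fun z : Fin m × Fin n => X (a z.1, z.2) ≠ X (b z.1, z.2)).card +
      (univ.filter fun z : Fin n × Fin m => X (z.1, a z.2) ≠ X (z.1, b z.2)).card := by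
  unfold energy hammingNorm
  simp only [Finset.card_filter, Fintype.sum_sum_type]
  congr 1
  · refine Finset.sum_congr rfl fun z _ => ?_
    obtain ⟨r, v⟩ := z
    simp only [tensor_inl hab, add_ne_zero_iff]
  · refine Finset.sum_congr rfl fun z _ => ?_
    obtain ⟨u, r⟩ := z
    simp only [tensor_inr hab, add_ne_zero_iff]

end edges

section concrete
variable (s n : ℕ)

/-- number of edges -/
def em : ℕ := (n - 1) + (s * s - s)

def lo (r : ℕ) : ℕ := if r < n - 1 then r else r - (n - 1)
def hi (r : ℕ) : ℕ := if r < n - 1 then r + 1 else r - (n - 1) + s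

variable {s n}

lemma lo_lt (hs : 2 ≤ s) (hn : s * s ≤ n) (r : Fin (em s n)) : lo n r < n := by
  have := r.2
  have h2 : s ≤ s * s := Nat.le_mul_self s
  unfold em at this
  unfold lo
  split_ifs <;> omega

lemma hi_lt (hs : 2 ≤ s) (hn : s * s ≤ n) (r : Fin (em s n)) : hi s n r < n := by
  have := r.2
  have h2 : s ≤ s * s := Nat.le_mul_self s
  unfold em at this
  unfold hi
  split_ifs <;> omega

def ea (hs : 2 ≤ s) (hn : s * s ≤ n) (r : Fin (em s n)) : Fin n := ⟨lo n r, lo_lt hs hn r⟩
def eb (hs : 2 ≤ s) (hn : s * s ≤ n) (r : Fin (em s n)) : Fin n := ⟨hi s n r, hi_lt hs hn r⟩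

lemma ea_ne_eb (hs : 2 ≤ s) (hn : s * s ≤ n) (r : Fin (em s n)) : ea hs hn r ≠ eb hs hn r := by
  intro h
  have := congrArg Fin.val h
  simp only [ea, eb, lo, hi] at this
  split_ifs at this <;> omega

def HH (hs : 2 ≤ s) (hn : s * s ≤ n) : Matrix (Fin (em s n)) (Fin n) (ZMod 2) :=
  inc (ea hs hn) (eb hs hn)

lemma HH_one (hs : 2 ≤ s) (hn : s * s ≤ n) : HH hs hn *ᵥ (fun _ => 1) = 0 := by
  funext r
  rw [HH, inc_mulVec (ea_ne_eb hs hn)]
  rfl

lemma one_ne_zero' (hs : 2 ≤ s) (hn : s * s ≤ n) : (fun _ => 1 : Fin n → ZMod 2) ≠ 0 := by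
  intro h
  have h0 : 0 < n := by nlinarith
  have := congrFun h ⟨0, h0⟩
  simp at this

lemma codeword_eq (hs : 2 ≤ s) (hn : s * s ≤ n) {x : Fin n → ZMod 2} (hx : x ≠ 0)
    (h : HH hs hn *ᵥ x = 0) : x = fun _ => 1 := by
  have h0 : 0 < n := by nlinarith
  have hc : ∀ j (hj : j < n), x ⟨j, hj⟩ = x ⟨0, h0⟩ := by
    intro j
    induction j with
    | zero => intro hj; rfl
    | succ j ih =>
      intro hj
      rw [← ih (by omega)]
      have hr : j < em s n := by unfold em; omega
      have h1 := congrFun h ⟨j, hr⟩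
      rw [HH, inc_mulVec (ea_ne_eb hs hn)] at h1
      have hj' : j < n - 1 := by omega
      have e1 : ea hs hn ⟨j, hr⟩ = ⟨j, by omega⟩ := by
        apply Fin.ext; simp [ea, lo, hj']
      have e2 : eb hs hn ⟨j, hr⟩ = ⟨j + 1, hj⟩ := by
        apply Fin.ext; simp [eb, hi, hj']
      rw [e1, e2] at h1
      by_contra hne
      exact (add_ne_zero_iff _ _).mpr (Ne.symm hne) h1
  have h1 : x ⟨0, h0⟩ = 1 := by
    by_contra hne
    apply hx
    funext j
    have : x ⟨0, h0⟩ = 0 := by
      revert hne
      generalize x ⟨0, h0⟩ = u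
      revert u; decide
    exact (hc j.1 j.2).trans this
  funext j
  rw [← h1, ← hc j.1 j.2]

lemma minDist_HH (hs : 2 ≤ s) (hn : s * s ≤ n) : minDist (HH hs hn) = n := by
  have : {w : ℕ | ∃ x : Fin n → ZMod 2, x ≠ 0 ∧ HH hs hn *ᵥ x = 0 ∧ hammingNorm x = w} = {n} := by
    have hw : hammingNorm (fun _ => 1 : Fin n → ZMod 2) = n := by
      simp [hammingNorm]
    ext w
    simp only [Set.mem_ofPred_eq, Set.mem_singleton_iff]
    constructor
    · rintro ⟨x, hx, h, rfl⟩
      rw [codeword_eq hs hn hx h, hw]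
    · rintro rfl
      exact ⟨_, one_ne_zero' hs hn, HH_one hs hn, hw⟩
  rw [minDist, this, csInf_singleton]

lemma barrier_HH (hs : 2 ≤ s) (hn : s * s ≤ n) :
    barrier (HH hs hn) = wordBarrier (HH hs hn) (fun _ => 1) := by
  have : {e : ℕ | ∃ x : Fin n → ZMod 2, x ≠ 0 ∧ HH hs hn *ᵥ x = 0 ∧ wordBarrier (HH hs hn) x = e}
      = {wordBarrier (HH hs hn) (fun _ => 1)} := by
    ext w
    simp only [Set.mem_ofPred_eq, Set.mem_singleton_iff]
    constructor
    · rintro ⟨x, hx, h, rfl⟩
      rw [codeword_eq hs hn hx h]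
    · rintro rfl
      exact ⟨_, one_ne_zero' hs hn, HH_one hs hn, rfl⟩
  rw [barrier, this, csInf_singleton]

/-- discrete intermediate value: a sequence with two different values has a jump. -/
lemma exists_jump (f : ℕ → ZMod 2) {k i j : ℕ} (hi : i < k) (hj : j < k) (h : f i ≠ f j) :
    ∃ t, t + 1 < k ∧ f t ≠ f (t + 1) := by
  by_contra hcon
  push Not at hcon
  have : ∀ t, t < k → f t = f 0 := by
    intro t
    induction t with
    | zero => intro _; rfl
    | succ t ih => intro ht; rw [← hcon t ht, ih (by omega)]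
  exact h ((this i hi).trans (this j hj).symm)

/-- extension of a word by zero -/
def ext0 (x : Fin n → ZMod 2) (j : ℕ) : ZMod 2 := if h : j < n then x ⟨j, h⟩ else 0

def Full (s : ℕ) (x : Fin n → ZMod 2) (c : ℕ) : Prop := ∀ j < s, ext0 x (j * s + c) = 1

lemma energy_ge (hs : 2 ≤ s) (hn : s * s ≤ n) (x : Fin n → ZMod 2) (c0 : ℕ) (hc0 : c0 < s)
    (hfull : Full s x c0) (hnot : ∀ c < s, c ≠ c0 → ¬ Full s x c) :
    s - 1 ≤ energy (HH hs hn) x := by
  rw [HH, energy_inc (ea_ne_eb hs hn)]
  have hss : s ≤ s * s := Nat.le_mul_self s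
  have key : ∀ r : Fin (em s n), ext0 x (lo n r) ≠ ext0 x (hi s n r) →
      r ∈ univ.filter fun r => x (ea hs hn r) ≠ x (eb hs hn r) := by
    intro r hr
    simp only [mem_filter, mem_univ, true_and]
    simpa [ext0, lo_lt hs hn r, hi_lt hs hn r, ea, eb] using hr
  by_cases hz : ∃ c < s, ∀ j < s, ext0 x (j * s + c) = 0
  · obtain ⟨c, hc, hz⟩ := hz
    have hrow : ∀ j : Fin s, ∃ t, t + 1 < s ∧
        ext0 x (j * s + t) ≠ ext0 x (j * s + (t + 1)) := by
      intro j
      refine exists_jump (fun t => ext0 x (j * s + t)) hc hc0 ?_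
      simp only [hz j j.2, hfull j j.2]
      decide
    choose t ht1 ht2 using hrow
    have hb : ∀ j : Fin s, j * s + t j < n - 1 := by
      intro j
      have h1 : (j + 1) * s ≤ s * s := Nat.mul_le_mul_right s j.2
      have := ht1 j
      have : (j + 1) * s = j * s + s := by ring
      omega
    let g : Fin s → Fin (em s n) := fun j => ⟨j * s + t j, by have := hb j; unfold em; omega⟩
    have hg : Function.Injective g := by
      intro j j' h
      have h1 : j * s + t j = j' * s + t j' := congrArg Fin.val h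
      have h2 : (j * s + t j) / s = j := by
        rw [Nat.add_comm, Nat.add_mul_div_right _ _ (by omega), Nat.div_eq_of_lt (by have := ht1 j; omega)]
        simp
      have h3 : (j' * s + t j') / s = j' := by
        rw [Nat.add_comm, Nat.add_mul_div_right _ _ (by omega), Nat.div_eq_of_lt (by have := ht1 j'; omega)]
        simp
      apply Fin.ext
      rw [← h2, ← h3, h1]
    have : (univ : Finset (Fin s)).card ≤
        (univ.filter fun r => x (ea hs hn r) ≠ x (eb hs hn r)).card := by
      refine Finset.card_le_card_of_injOn g (fun j _ => key _ ?_) hg.injOn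
      have := ht2 j
      simpa [g, lo, hi, hb j, Nat.add_assoc] using this
    simp only [card_univ, Fintype.card_fin] at this
    omega
  · push Not at hz
    have hcol : ∀ c : Fin s, c.1 ≠ c0 → ∃ t, t + 1 < s ∧
        ext0 x (t * s + c) ≠ ext0 x ((t + 1) * s + c) := by
      intro c hc
      obtain ⟨j, hj, hj0⟩ := hz c c.2
      have := hnot c c.2 hc
      unfold Full at this
      push Not at this
      obtain ⟨j', hj', hj1⟩ := this
      refine exists_jump (fun t => ext0 x (t * s + c)) hj hj' ?_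
      revert hj0 hj1
      generalize ext0 x (j * s + c) = u
      generalize ext0 x (j' * s + c) = v
      revert u v; decide
    choose! t ht1 ht2 using hcol
    have hb : ∀ c : Fin s, c.1 ≠ c0 → t c * s + c + s < s * s := by
      intro c hc
      have h1 : (t c + 2) * s ≤ s * s := Nat.mul_le_mul_right s (ht1 c hc)
      have := c.2
      have : (t c + 2) * s = t c * s + s + s := by ring
      omega
    have hem : 0 < em s n := by unfold em; have : 2 * 2 ≤ s * s := Nat.mul_le_mul hs hs; omega
    let g : Fin s → Fin (em s n) := fun c =>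
      if h : c.1 ≠ c0 then ⟨n - 1 + (t c * s + c), by have := hb c h; unfold em; omega⟩
      else ⟨0, hem⟩
    have : (univ.erase (⟨c0, hc0⟩ : Fin s)).card ≤
        (univ.filter fun r => x (ea hs hn r) ≠ x (eb hs hn r)).card := by
      refine Finset.card_le_card_of_injOn g (fun c hc => key _ ?_) ?_
      · have hc' : c.1 ≠ c0 := fun h => (Finset.mem_erase.mp hc).1 (Fin.ext h)
        have := ht2 c hc'
        have e : (t c + 1) * s + c = t c * s + c + s := by ring
        rw [e] at this
        simpa [g, lo, hi, hc'] using this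
      · intro c hc c' hc' h
        have hc1 : c.1 ≠ c0 := fun h => (Finset.mem_erase.mp hc).1 (Fin.ext h)
        have hc2 : c'.1 ≠ c0 := fun h => (Finset.mem_erase.mp hc').1 (Fin.ext h)
        have h1 := congrArg Fin.val h
        simp only [g, hc1, hc2, ne_eq, not_false_eq_true, dite_true] at h1
        have h2 : t c * s + c = t c' * s + c' := by omega
        have h3 := congrArg (· % s) h2
        simp only [Nat.mul_add_mod_of_lt c.2, Nat.mul_add_mod_of_lt c'.2] at h3
        exact Fin.ext h3
    simpa using this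

lemma barrier_ge (hs : 2 ≤ s) (hn : s * s ≤ n) : s - 1 ≤ barrier (HH hs hn) := by
  rw [barrier_HH]
  have hr : Reach (HH hs hn) (Fintype.card (Fin (em s n))) (fun _ => 1) :=
    reach_one (fun v : Fin n => v.1) Fin.val_injective (fun i => energy_le_card _ _)
  obtain ⟨F, p, hp0, hpF, hstep, hen⟩ := reach_wordBarrier hr
  have hlt : ∀ j < s, ∀ c < s, j * s + c < n := by
    intro j hj c hc
    have h1 : (j + 1) * s ≤ s * s := Nat.mul_le_mul_right s hj
    have : (j + 1) * s = j * s + s := by ring
    omega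
  have hex : ∃ i, i ≤ F ∧ ∃ c < s, Full s (p i) c := by
    refine ⟨F, le_rfl, 0, by omega, fun j hj => ?_⟩
    have := hlt j hj 0 (by omega)
    simp only [ext0, hpF, this, dite_true]
  classical
  obtain ⟨hiF, c0, hc0, hfull⟩ := Nat.find_spec hex
  have hmin := fun m (hm : m < Nat.find hex) => Nat.find_min hex hm
  generalize Nat.find hex = i at hiF hfull hmin
  refine le_trans (energy_ge hs hn (p i) c0 hc0 hfull ?_) (hen i hiF)
  intro c hc hne hf
  cases i with
  | zero =>
    have := hfull 0 (by omega)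
    simp [ext0, hp0] at this
  | succ i =>
    have hm := hmin i (by omega)
    push Not at hm
    have hm' := hm (by omega)
    have h1 := hm' c hc
    have h2 := hm' c0 hc0
    unfold Full at h1 h2
    push Not at h1 h2
    obtain ⟨j, hj, h1⟩ := h1
    obtain ⟨j0, hj0, h2⟩ := h2
    have hd := hstep i (by omega)
    unfold hammingDist at hd
    have hle := Finset.card_le_one.mp hd.le ⟨j * s + c, hlt j hj c hc⟩ ?_
      ⟨j0 * s + c0, hlt j0 hj0 c0 hc0⟩ ?_
    · have h3 := congrArg (fun z : Fin n => z.1 % s) hle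
      simp only [Nat.mul_add_mod_of_lt hc, Nat.mul_add_mod_of_lt hc0] at h3
      exact hne h3
    · refine Finset.mem_filter.mpr ⟨mem_univ _, ?_⟩
      have := hf j hj
      simp only [ext0, hlt j hj c hc, dite_true] at this h1
      rw [this]; exact h1
    · refine Finset.mem_filter.mpr ⟨mem_univ _, ?_⟩
      have := hfull j0 hj0
      simp only [ext0, hlt j0 hj0 c0 hc0, dite_true] at this h2
      rw [this]; exact h2

lemma count_le (q : ℕ) (S : Finset (Fin (em s n) × Fin n))
    (hS : ∀ z ∈ S, lo n z.1 + z.2 ≤ q ∧ q ≤ hi s n z.1 + z.2) :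
    S.card ≤ n * 2 + s * s * (s + 1) := by
  have hss : s ≤ s * s := Nat.le_mul_self s
  let T := (range n ×ˢ range 2).disjSum (range (s * s) ×ˢ range (s + 1))
  have hT : T.card = n * 2 + s * s * (s + 1) := by simp [T]
  rw [← hT]
  let g : Fin (em s n) × Fin n → (ℕ × ℕ) ⊕ (ℕ × ℕ) := fun z =>
    if z.1.1 < n - 1 then Sum.inl (z.2.1, q - (z.1.1 + z.2.1))
    else Sum.inr (z.1.1 - (n - 1), q - (z.1.1 - (n - 1) + z.2.1))
  refine Finset.card_le_card_of_injOn g ?_ ?_
  · intro z hz
    have h := hS z hz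
    have h1 := z.1.2
    have h2 := z.2.2
    unfold em at h1
    unfold lo hi at h
    by_cases hz1 : z.1.1 < n - 1
    · simp only [hz1, if_true] at h
      simp only [g, hz1, if_true, T, Finset.mem_coe, Finset.inl_mem_disjSum, Finset.mem_product,
        Finset.mem_range]
      omega
    · simp only [hz1, if_false] at h
      simp only [g, hz1, if_false, T, Finset.mem_coe, Finset.inr_mem_disjSum, Finset.mem_product,
        Finset.mem_range]
      omega
  · intro z hz z' hz' e
    have h := hS z hz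
    have h' := hS z' hz'
    unfold lo hi at h h'
    by_cases hz1 : z.1.1 < n - 1 <;> by_cases hz2 : z'.1.1 < n - 1 <;>
      simp only [g, hz1, hz2, if_true, if_false, Sum.inl.injEq, Sum.inr.injEq, Prod.mk.injEq,
        reduceCtorEq] at e h h'
    · exact Prod.ext (Fin.ext (by omega)) (Fin.ext (by omega))
    · exact Prod.ext (Fin.ext (by omega)) (Fin.ext (by omega))

def key (n : ℕ) (z : Fin n × Fin n) : ℕ := (z.1.1 + z.2.1) * n + z.1.1

lemma key_inj : Function.Injective (key n) := by
  intro z z' h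
  unfold key at h
  have h3 := congrArg (· % n) h
  simp only [Nat.mul_add_mod_of_lt z.1.2, Nat.mul_add_mod_of_lt z'.1.2] at h3
  have hn : 0 < n := Fin.pos z.1
  have h4 : (z.1.1 + z.2.1) * n = (z'.1.1 + z'.2.1) * n := by omega
  have h5 := Nat.eq_of_mul_eq_mul_right hn h4
  exact Prod.ext (Fin.ext h3) (Fin.ext (by omega))

lemma key_div (z : Fin n × Fin n) : key n z / n = z.1.1 + z.2.1 := by
  have hn : 0 < n := Fin.pos z.1
  unfold key
  rw [Nat.add_comm, Nat.add_mul_div_right _ _ hn, Nat.div_eq_of_lt z.1.2]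
  simp

lemma pre_ne {z z' : Fin n × Fin n} {i : ℕ} (hlt : z.1.1 + z.2.1 < z'.1.1 + z'.2.1)
    (h : pre (key n) i z ≠ pre (key n) i z') :
    z.1.1 + z.2.1 ≤ i / n ∧ i / n ≤ z'.1.1 + z'.2.1 := by
  rw [← key_div, ← key_div] at hlt ⊢
  have hk : key n z < key n z' := lt_of_not_ge fun h => absurd (Nat.div_le_div_right (c := n) h) (by omega)
  unfold pre at h
  by_cases h1 : key n z < i
  · by_cases h2 : key n z' < i
    · simp [h1, h2] at h
    · exact ⟨Nat.div_le_div_right h1.le, Nat.div_le_div_right (by omega)⟩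
  · have h2 : ¬ key n z' < i := by omega
    simp [h1, h2] at h

lemma lo_lt_hi (hs : 2 ≤ s) (r : ℕ) : lo n r < hi s n r := by
  unfold lo hi
  split_ifs <;> omega

lemma tensor_energy_le (hs : 2 ≤ s) (hn : s * s ≤ n) (i : ℕ) :
    energy (tensor (HH hs hn) (HH hs hn)) (pre (key n) i) ≤ 2 * (n * 2 + s * s * (s + 1)) := by
  rw [HH, energy_tensor (ea_ne_eb hs hn), two_mul]
  refine Nat.add_le_add ?_ ?_
  · refine count_le (i / n) _ fun z hz => ?_
    have h := (Finset.mem_filter.mp hz).2
    have := lo_lt_hi (n := n) hs z.1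
    exact pre_ne (z := (ea hs hn z.1, z.2)) (z' := (eb hs hn z.1, z.2))
      (by simp only [ea, eb]; omega) h
  · rw [← Finset.card_map (Equiv.prodComm _ _).toEmbedding]
    refine count_le (i / n) _ fun z hz => ?_
    obtain ⟨w, hw, rfl⟩ := Finset.mem_map.mp hz
    have h := (Finset.mem_filter.mp hw).2
    have := lo_lt_hi (n := n) hs w.2
    have h2 := pre_ne (z := (w.1, ea hs hn w.2)) (z' := (w.1, eb hs hn w.2))
      (by simp only [ea, eb]; omega) h
    simp only [ea, eb] at h2
    simp only [Equiv.coe_toEmbedding, Equiv.prodComm_apply, Prod.fst_swap, Prod.snd_swap]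
    omega

lemma barrier_tensor_le (hs : 2 ≤ s) (hn : s * s ≤ n) :
    barrier (tensor (HH hs hn) (HH hs hn)) ≤ 2 * (n * 2 + s * s * (s + 1)) := by
  refine le_trans (Nat.sInf_le ⟨fun _ => 1, ?_, ?_, rfl⟩)
    (wordBarrier_le (reach_one (key n) key_inj (tensor_energy_le hs hn)))
  · intro h
    have h0 : 0 < n := by nlinarith
    have := congrFun h (⟨0, h0⟩, ⟨0, h0⟩)
    simp at this
  · funext z
    rcases z with ⟨r, v⟩ | ⟨u, r⟩
    · rw [HH, tensor_inl (ea_ne_eb hs hn)]; rfl
    · rw [HH, tensor_inr (ea_ne_eb hs hn)]; rfl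

lemma row_weight (hs : 2 ≤ s) (hn : s * s ≤ n) (r : Fin (em s n)) :
    hammingNorm (HH hs hn r) = 2 := by
  unfold hammingNorm
  refine Eq.trans ?_ (Finset.card_pair (ea_ne_eb hs hn r))
  congr 1
  ext j
  simp [HH, inc]
  tauto

lemma col_weight (hs : 2 ≤ s) (hn : s * s ≤ n) (j : Fin n) :
    hammingNorm ((HH hs hn)ᵀ j) ≤ 4 := by
  unfold hammingNorm
  have : ({j.1, j.1 - 1, j.1 + (n - 1), j.1 + (n - 1) - s} : Finset ℕ).card ≤ 4 :=
    Finset.card_le_four
  refine le_trans ?_ this
  refine Finset.card_le_card_of_injOn Fin.val ?_ Fin.val_injective.injOn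
  intro r hr
  have h := (Finset.mem_filter.mp hr).2
  have h1 : j = ea hs hn r ∨ j = eb hs hn r := by
    by_contra hc
    simp [HH, inc, hc] at h
  have h2 : j.1 = lo n r ∨ j.1 = hi s n r := by
    rcases h1 with h1 | h1
    · left; rw [h1]; rfl
    · right; rw [h1]; rfl
  unfold lo hi at h2
  simp only [Finset.coe_insert, Finset.coe_singleton, Set.mem_insert_iff, Set.mem_singleton_iff]
  split_ifs at h2 <;> omega

lemma rows_inj (hs : 2 ≤ s) (hn : s * s ≤ n) : Function.Injective (HH hs hn) := by
  intro r r' h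
  have h1 := congrFun h (ea hs hn r)
  have h2 := congrFun h (eb hs hn r)
  have e1 : ea hs hn r = ea hs hn r' ∨ ea hs hn r = eb hs hn r' := by
    by_contra hc
    simp [HH, inc, hc] at h1
  have e2 : eb hs hn r = ea hs hn r' ∨ eb hs hn r = eb hs hn r' := by
    by_contra hc
    simp [HH, inc, hc] at h2
  simp only [Fin.ext_iff, ea, eb, lo, hi] at e1 e2
  apply Fin.ext
  split_ifs at e1 e2 <;> omega

end concrete

theorem main (C : ℕ) : ∃ (m n : ℕ) (H : Matrix (Fin m) (Fin n) (ZMod 2)),
    (∃ x : Fin n → ZMod 2, x ≠ 0 ∧ H *ᵥ x = 0) ∧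
    (∀ i, hammingNorm (H i) = 2) ∧ (∀ j, hammingNorm (Hᵀ j) ≤ 4) ∧ Function.Injective H ∧
    C * barrier (tensor H H) < min (minDist H * barrier H) (barrier H * minDist H) := by
  have hs : 2 ≤ 8 * C + 2 := by omega
  generalize hsC : 8 * C + 2 = s at hs
  have hn : s * s ≤ s * s * s := Nat.le_mul_of_pos_right _ (by omega)
  refine ⟨_, _, HH hs hn, ⟨_, one_ne_zero' hs hn, HH_one hs hn⟩, row_weight hs hn,
    col_weight hs hn, rows_inj hs hn, ?_⟩
  rw [mul_comm (barrier _), min_self, minDist_HH]
  have h1 := barrier_tensor_le hs hn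
  have h2 := barrier_ge hs hn
  have h3 : s * s * (s + 1) ≤ s * s * s * 2 := by nlinarith
  have h4 : 0 < s * s * s := by positivity
  have h5 : s - 1 = 8 * C + 1 := by omega
  calc C * barrier (tensor (HH hs hn) (HH hs hn))
      ≤ C * (2 * (s * s * s * 2 + s * s * s * 2)) := Nat.mul_le_mul_left _ (by omega)
    _ < s * s * s * (8 * C + 1) := by nlinarith
    _ ≤ _ := Nat.mul_le_mul_left _ (by omega)

end Pool.Agent.P.MP_998457_co
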